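import Pool.Agent.Y811.IR.Stm

set_option autoImplicit false

/-!
# Project IR (helper811): S_BASIN
-/

open Filter Topology Metric Set

namespace Pool.Agent.Y555.IR

open Pool.Agent.Y811.IR

lemma cont_q (c : ℂ) : Continuous (q c) := by
  unfold q
  fun_prop

lemma diff_q (c : ℂ) : Differentiable ℂ (q c) := by
  unfold q
  fun_prop

lemma diff_iter (c : ℂ) (n : ℕ) : Differentiable ℂ ((q c)^[n]) := (diff_q c).iterate n

theorem contraction {F : ℂ → ℂ} {a : ℂ} (hF : DifferentiableAt ℂ F a) (ha : F a = a)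
    (hd : ‖deriv F a‖ < 1) :
    ∃ k r : ℝ, 0 ≤ k ∧ k < 1 ∧ 0 < r ∧ ∀ ρ ≤ r, ∀ z ∈ ball a ρ, ∀ m : ℕ,
      F^[m] z ∈ ball a ρ ∧ ‖F^[m] z - a‖ ≤ k ^ m * ‖z - a‖ := by
  obtain ⟨k, hk1, hk2⟩ := exists_between hd
  have hk0 : 0 ≤ k := (norm_nonneg _).trans hk1.le
  have h2 := hF.hasDerivAt.isLittleO.def (sub_pos.2 hk1)
  obtain ⟨r, hr, h3⟩ := Metric.eventually_nhds_iff_ball.1 h2
  have h4 : ∀ z ∈ ball a r, ‖F z - a‖ ≤ k * ‖z - a‖ := by
    intro z hz
    have h5 := h3 z hz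
    rw [ha] at h5
    have h6 : ‖F z - a‖ ≤ ‖F z - a - (z - a) • deriv F a‖ + ‖(z - a) • deriv F a‖ := by
      have := norm_add_le (F z - a - (z - a) • deriv F a) ((z - a) • deriv F a)
      rwa [sub_add_cancel] at this
    rw [norm_smul] at h6
    nlinarith
  refine ⟨k, r, hk0, hk2, hr, fun ρ hρ z hz m => ?_⟩
  induction m with
  | zero => exact ⟨hz, by simp⟩
  | succ m ih =>
    obtain ⟨hb, hle⟩ := ih
    have h5 := h4 _ (ball_subset_ball hρ hb)
    rw [Function.iterate_succ_apply']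
    refine ⟨?_, ?_⟩
    · rw [mem_ball, dist_eq_norm] at hb ⊢
      have : (0:ℝ) ≤ ‖F^[m] z - a‖ := norm_nonneg _
      nlinarith
    · calc ‖F (F^[m] z) - a‖ ≤ k * ‖F^[m] z - a‖ := h5
        _ ≤ k * (k ^ m * ‖z - a‖) := by gcongr
        _ = k ^ (m + 1) * ‖z - a‖ := by ring

theorem t_BASIN : S_BASIN := by
  intro c N a ⟨hN, hfix, hd⟩
  have hF : DifferentiableAt ℂ ((q c)^[N]) a := diff_iter c N a
  obtain ⟨k, r, hk0, hk1, hr, hc⟩ := contraction hF hfix hd
  have hFc : Continuous ((q c)^[N]) := (cont_q c).iterate N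
  set F := (q c)^[N] with hFdef
  have hball : ∀ z ∈ ball a r, Tendsto (fun n : ℕ => F^[n] z) atTop (𝓝 a) := by
    intro z hz
    rw [tendsto_iff_norm_sub_tendsto_zero]
    have h1 : Tendsto (fun m : ℕ => k ^ m * ‖z - a‖) atTop (𝓝 0) := by
      have := (tendsto_pow_atTop_nhds_zero_of_lt_one hk0 hk1).mul_const ‖z - a‖
      rwa [zero_mul] at this
    exact squeeze_zero (fun _ => norm_nonneg _) (fun m => (hc r le_rfl z hz m).2) h1
  refine ⟨?_, ?_, ?_⟩
  · rw [isOpen_iff_mem_nhds]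
    intro z hz
    have hz' : Tendsto (fun n : ℕ => F^[n] z) atTop (𝓝 a) := hz
    obtain ⟨n, hn⟩ := (hz'.eventually (ball_mem_nhds a hr)).exists
    have hopen : IsOpen ((F^[n]) ⁻¹' ball a r) := isOpen_ball.preimage (hFc.iterate n)
    refine mem_of_superset (hopen.mem_nhds hn) fun w hw => ?_
    have h1 := hball _ hw
    show Tendsto (fun n : ℕ => F^[n] w) atTop (𝓝 a)
    rw [← tendsto_add_atTop_iff_nat n]
    refine h1.congr fun m => ?_
    rw [Function.iterate_add_apply]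
  · show Tendsto (fun n : ℕ => F^[n] a) atTop (𝓝 a)
    have h1 : ∀ n : ℕ, F^[n] a = a := fun n => Function.iterate_fixed hfix n
    simp only [h1]
    exact tendsto_const_nhds
  · intro K hK hKB ε hε
    set ε' := min r ε with hε'
    have hε'0 : 0 < ε' := lt_min hr hε
    have hstep : ∀ n m z, F^[n] z ∈ ball a ε' → F^[n + m] z ∈ ball a ε' := by
      intro n m z hz
      rw [add_comm, Function.iterate_add_apply]
      exact (hc ε' (min_le_left _ _) _ hz m).1
    obtain ⟨n0, hn0⟩ := hK.elim_directed_cover (fun n : ℕ => (F^[n]) ⁻¹' ball a ε')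
      (fun n => isOpen_ball.preimage (hFc.iterate n)) (fun z hz => by
        have hz' : Tendsto (fun n : ℕ => F^[n] z) atTop (𝓝 a) := hKB hz
        obtain ⟨n, hn⟩ := (hz'.eventually (ball_mem_nhds a hε'0)).exists
        exact mem_iUnion.2 ⟨n, hn⟩)
      (fun i j => ⟨i + j, fun z hz => hstep i j z hz, fun z hz => by
        show F^[i + j] z ∈ ball a ε'
        rw [add_comm]
        exact hstep j i z hz⟩)
    refine ⟨n0, fun n hn z hz => ?_⟩
    obtain ⟨m, rfl⟩ := Nat.exists_eq_add_of_le hn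
    have h1 := hstep n0 m z (hn0 hz)
    rw [mul_comm, Function.iterate_mul]
    exact ball_subset_ball (min_le_right _ _) h1

end Pool.Agent.Y555.IR
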